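import Pool.Agent.P.MP_204fa9_nt.Main

/-!
The inequality `M k ≤ t (N k)` in sieved independent random models of the primes: almost surely it
holds for all large `k`, and `(t (N k) - M k) log k = (log log k) / 5 + O(1)`.
-/

set_option autoImplicit false

namespace Pool.Agent.Results.MP_204fa9_nt.SievedModel

open MeasureTheory ProbabilityTheory Filter Real

/-- the sum of the `2 n` smallest elements of `A` -/
noncomputable def S (A : Set ℕ) (n : ℕ) : ℕ := ∑ i ∈ Finset.range (2 * n), Nat.nth (· ∈ A) i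

/-- the set of the sums `S A n`, `n ≥ 1`, that lie in `A` -/
def Q (A : Set ℕ) : Set ℕ := {s | s ∈ A ∧ ∃ n, 1 ≤ n ∧ s = S A n}

/-- the `k`-th smallest element of `Q A`, for `k ≥ 1` -/
noncomputable def q (A : Set ℕ) (k : ℕ) : ℕ := Nat.nth (· ∈ Q A) (k - 1)

/-- the quotient `S A n / (2 n ^ 2 log n)` -/
noncomputable def t (A : Set ℕ) (n : ℕ) : ℝ := S A n / (2 * (n : ℝ) ^ 2 * log n)

theorem result {Ω : Type*} [MeasurableSpace Ω] (P : Measure Ω) [IsProbabilityMeasure P]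
    (E : ℕ → Set Ω) (hE : ∀ l, MeasurableSet (E l)) (hi : iIndepSet E P)
    (W : ℕ) (hW : Even W) (hW0 : 0 < W) (h2 : P (E 2) = 1)
    (h0 : ∀ l, Even l → l ≠ 2 → P (E l) = 0)
    (h : ∀ᶠ l : ℕ in atTop,
      P.real (E l) = if l.Coprime W then (W : ℝ) / W.totient / log l else 0) :
    ∀ᵐ ω ∂P, (Q {l | ω ∈ E l}).Infinite ∧ ∃ C : ℝ, ∀ᶠ k : ℕ in atTop, ∀ M : ℝ, 0 < M →
      (q {l | ω ∈ E l} k : ℝ) =
        2 * (k : ℝ) ^ 2 * M ^ 5 * log k ^ 2 * (log k + log (log k) + 2 * log M) →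
      M ≤ t {l | ω ∈ E l} ⌊k * log k⌋₊ ∧
        |(t {l | ω ∈ E l} ⌊k * log k⌋₊ - M) * log k - log (log k) / 5| ≤ C :=
  Pool.Agent.P.MP_204fa9_nt.main hW hW0 hE hi h2 h0 h

/-- the equation that defines the parameter has a positive solution -/
theorem solvable (k v : ℕ) (hk : 3 ≤ k) : ∃ M : ℝ, 0 < M ∧
    (v : ℝ) = 2 * (k : ℝ) ^ 2 * M ^ 5 * log k ^ 2 * (log k + log (log k) + 2 * log M) := by
  have a : (3 : ℝ) ≤ k := by exact_mod_cast hk
  have b : 1 ≤ log (k : ℝ) := (le_log_iff_exp_le (by linarith)).2 (by linarith [exp_one_lt_d9])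
  have c := log_nonneg b
  have v0 : (0 : ℝ) ≤ v := Nat.cast_nonneg v
  have d : exp (-(log k + log (log k)) / 2) ≤ v + 1 := (exp_le_one_iff.2 (by linarith)).trans
    (by linarith)
  have e : ∀ M ∈ Set.Icc (exp (-(log k + log (log k)) / 2)) (v + 1), (0 : ℝ) < M := fun M h =>
    (exp_pos _).trans_le h.1
  have f : 0 ≤ log ((v : ℝ) + 1) := log_nonneg (by linarith)
  have g : (v : ℝ) + 1 ≤ (v + 1) ^ 5 := le_self_pow₀ (by linarith) (by norm_num)
  obtain ⟨M, h1, h2⟩ := intermediate_value_Icc d (f := fun M : ℝ =>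
    2 * (k : ℝ) ^ 2 * M ^ 5 * log k ^ 2 * (log k + log (log k) + 2 * log M))
    (ContinuousOn.mul (by fun_prop) (continuousOn_const.add (continuousOn_const.mul
      (continuousOn_id.log fun M h => (e M h).ne')))) (show (v : ℝ) ∈ _ from
    ⟨by simp only [log_exp]; exact le_of_eq_of_le (by ring) v0,
      calc (v : ℝ) ≤ 1 * (v + 1) * 1 * 1 := by linarith
        _ ≤ _ := by gcongr <;> nlinarith⟩)
  exact ⟨M, e M h1, h2.symm⟩

/-- the hypotheses can be met for every even modulus -/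
theorem exists_model (W : ℕ) (hW : Even W) : ∃ (Ω : Type) (_ : MeasurableSpace Ω) (P : Measure Ω)
    (_ : IsProbabilityMeasure P) (E : ℕ → Set Ω), (∀ l, MeasurableSet (E l)) ∧ iIndepSet E P ∧
    P (E 2) = 1 ∧ (∀ l, Even l → l ≠ 2 → P (E l) = 0) ∧ ∀ᶠ l : ℕ in atTop,
      P.real (E l) = if l.Coprime W then (W : ℝ) / W.totient / log l else 0 := by
  let p : ℕ → ℝ := fun l =>
    if l = 2 then 1 else if l.Coprime W then min ((W : ℝ) / W.totient / log l) 1 else 0
  have hp : ∀ l, 0 ≤ p l ∧ p l ≤ 1 := fun l => by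
    have := log_natCast_nonneg l
    simp only [p]
    split_ifs
    exacts [⟨zero_le_one, le_rfl⟩, ⟨by positivity, min_le_right _ _⟩, ⟨le_rfl, zero_le_one⟩]
  have i : IsProbabilityMeasure (volume.restrict (Set.Ioc (0 : ℝ) 1)) := ⟨by simp⟩
  obtain ⟨Ω, _, P, X, h1, h2, h3, h4⟩ := exists_iid ℕ (volume.restrict (Set.Ioc (0 : ℝ) 1))
  have a : ∀ l, MeasurableSet (X l ⁻¹' Set.Iic (p l)) := fun l => h1 l measurableSet_Iic
  have b : ∀ l, P (X l ⁻¹' Set.Iic (p l)) = ENNReal.ofReal (p l) := fun l => by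
    rw [← Measure.map_apply (h1 l) measurableSet_Iic, (h2 l).map_eq,
      Measure.restrict_apply measurableSet_Iic, Set.inter_comm, Set.Ioc_inter_Iic,
      min_eq_right (hp l).2, Real.volume_Ioc, sub_zero]
  refine ⟨Ω, _, P, h4, fun l => X l ⁻¹' Set.Iic (p l), a, (iIndepSet_iff_meas_biInter a).2
    fun s => h3.measure_inter_preimage_eq_mul s fun _ _ => measurableSet_Iic, by rw [b]; simp [p],
    fun l c d => ?_, ?_⟩
  · rw [b]
    simp only [p, if_neg d,
      if_neg (Nat.not_coprime_of_dvd_of_dvd one_lt_two c.two_dvd hW.two_dvd), ENNReal.ofReal_zero]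
  · filter_upwards [eventually_ne_atTop 2, (tendsto_log_atTop.comp
      tendsto_natCast_atTop_atTop).eventually_ge_atTop ((W : ℝ) / W.totient)] with l c d
    rw [measureReal_def, b, ENNReal.toReal_ofReal (hp l).1]
    have e : (W : ℝ) / W.totient / log l ≤ 1 := div_le_one_of_le₀ d (log_natCast_nonneg l)
    simp only [p, if_neg c, min_eq_left e]

end Pool.Agent.Results.MP_204fa9_nt.SievedModel
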